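import Pool.Agent.V11167.DomC

/-!
For every `l ≥ 4` the independent domination number of the graph formed by the `l`-subsets and the
`2`-subsets of an `n`-set (an `l`-set is adjacent to the pairs it contains) is asymptotically at
least `(c_l + ε_l - o(1)) * (n choose 2)`, where `c_l = (l+3)/((l-1)(l+1))` is the constant of the
domination number and `ε_l = 2(l-3)/((l-1)^3 (l+1)) > 0`.

`Pool.Agent.V11167.Dom.levelGraph l n` is that graph, `indepDomNum G` is the least size of an
independent dominating set of `G`.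
-/

namespace Pool.Agent.Results.MP_8cad3b_co.GapForLevels

open Pool.Agent.V11167.Dom

/-- For every `l ≥ 4` the number `ε = 2(l-3)/((l-1)^3 (l+1))` is positive and, for every `δ > 0`
and all large `n`, the independent domination number of `G_{l,2}(n)` is at least
`(c_l + ε - δ) * (n choose 2)`. -/
theorem result (l : ℕ) (hl : 4 ≤ l) :
    0 < 2 * ((l:ℝ) - 3) / (((l:ℝ) - 1)^3 * ((l:ℝ) + 1)) ∧
    ∀ δ : ℝ, 0 < δ → ∀ᶠ n : ℕ in Filter.atTop,
      (((l:ℝ) + 3) / (((l:ℝ) - 1) * ((l:ℝ) + 1))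
        + 2 * ((l:ℝ) - 3) / (((l:ℝ) - 1)^3 * ((l:ℝ) + 1)) - δ) * (n.choose 2 : ℝ)
      ≤ (indepDomNum (levelGraph l n) : ℝ) := by
  refine ⟨?_, fun δ hδ => final l hl δ hδ⟩
  have h : (4:ℝ) ≤ l := by exact_mod_cast hl
  have h1 : 0 < (l:ℝ) - 3 := by linarith
  have h2 : 0 < (l:ℝ) - 1 := by linarith
  positivity

end Pool.Agent.Results.MP_8cad3b_co.GapForLevels
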